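import Pool.Agent.K7.H74.AG.Stm
import Pool.Agent.K7.H64.AF.TSTEP

set_option autoImplicit false

/-! Project AG, job LSTEP: the step for the deficit sets (after helper64's file for project AF). -/

open MeasureTheory Finset

namespace Pool.Agent.K7.H11.AGL

open Pool.Agent.K7.H74.AF (lo blk Box mx)
open Pool.Agent.K7.H74.AG
open Pool.Agent.K7.H64.AFT (pick card_blk i1 mbound mx_last mx_init)

/-- pointwise decomposition -/
lemma point (c : ℝ) (M l0 : ℕ) (v : ℝ) (hv : 0 ≤ v) (hc : c ≤ 2 ^ M) :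
    c ≤ v + 2 ^ l0 +
      ∑ l ∈ Finset.Icc l0 M, if v + (2 : ℝ) ^ l ≤ c then (2 : ℝ) ^ (l + 1) else 0 := by
  classical
  have hnn : ∀ l ∈ Finset.Icc l0 M, 0 ≤ if v + (2 : ℝ) ^ l ≤ c then (2 : ℝ) ^ (l + 1) else 0 := by
    intro l _
    split_ifs
    · positivity
    · exact le_refl _
  by_cases h : v + (2 : ℝ) ^ l0 ≤ c
  · have hl0 : l0 ≤ M := by
      have : (2 : ℝ) ^ l0 ≤ 2 ^ M := by linarith
      exact (pow_le_pow_iff_right₀ (by norm_num : (1 : ℝ) < 2)).1 this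
    set g := Nat.findGreatest (fun l => v + (2 : ℝ) ^ l ≤ c) M with hg
    have h1 : v + (2 : ℝ) ^ g ≤ c := Nat.findGreatest_spec (P := fun l => v + (2 : ℝ) ^ l ≤ c) hl0 h
    have h2 : l0 ≤ g := Nat.le_findGreatest hl0 h
    have h3 : g ≤ M := Nat.findGreatest_le M
    have h4 : c ≤ v + 2 ^ (g + 1) := by
      rcases lt_or_eq_of_le h3 with h5 | h5
      · have := Nat.findGreatest_is_greatest (P := fun l => v + (2 : ℝ) ^ l ≤ c)
          (n := M) (k := g + 1) (by omega) (by omega)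
        push Not at this
        exact this.le
      · rw [h5]
        have : (2 : ℝ) ^ M ≤ 2 ^ (M + 1) := pow_le_pow_right₀ (by norm_num) (by omega)
        linarith
    have h5 : (2 : ℝ) ^ (g + 1) ≤
        ∑ l ∈ Finset.Icc l0 M, if v + (2 : ℝ) ^ l ≤ c then (2 : ℝ) ^ (l + 1) else 0 := by
      have := Finset.single_le_sum hnn (Finset.mem_Icc.2 ⟨h2, h3⟩)
      simpa [h1] using this
    have h6 : (0 : ℝ) < 2 ^ l0 := by positivity
    linarith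
  · have := Finset.sum_nonneg hnn
    push Not at h
    linarith

/-- the number of `x` of the block with `τ - (x + β) ^ k ∈ B` -/
noncomputable def nn (k J : ℕ) (B : Set ℝ) (β τ : ℝ) : ℕ := by
  classical
  exact ((blk J).filter fun x : ℕ => τ - β * (x : ℝ) ^ k ∈ B).card

lemma nn_le (k J : ℕ) (B : Set ℝ) (β τ : ℝ) : (nn k J B β τ : ℝ) ≤ 3 ^ J := by
  classical
  refine le_trans ?_ (card_blk J)
  unfold nn
  exact_mod_cast Finset.card_filter_le _ _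

lemma vol_shift (k : ℕ) (B : Set ℝ) (β : ℝ) (x : ℕ) :
    volume {τ : ℝ | τ - β * (x : ℝ) ^ k ∈ B} = volume B := by
  have := measure_preimage_add_right (volume : Measure ℝ) (-(β * (x : ℝ) ^ k)) B
  simpa [Set.preimage, sub_eq_add_neg] using this

lemma vol_two (k J : ℕ) (B : Set ℝ) (hB : MeasurableSet B) (β K : ℝ) (hK : 1 < K) :
    ENNReal.ofReal (K ^ 2 / 2) * volume {τ : ℝ | K ≤ nn k J B β τ} ≤ pairs k J B β := by
  classical
  set A : ℕ → Set ℝ := fun x => {τ : ℝ | τ - β * (x : ℝ) ^ k ∈ B} with hA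
  have hAm : ∀ x, MeasurableSet (A x) := fun x => (measurable_id.sub_const _) hB
  set f : ℝ → ENNReal := fun τ => ∑ x ∈ blk J, ∑ y ∈ (blk J).erase x,
    (A x ∩ A y).indicator 1 τ with hf
  have hfm : Measurable f := by
    refine Finset.measurable_sum _ fun x _ => Finset.measurable_sum _ fun y _ => ?_
    exact measurable_one.indicator ((hAm x).inter (hAm y))
  have h1 : ∫⁻ τ, f τ = pairs k J B β := by
    unfold pairs
    simp only [hf]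
    rw [lintegral_finsetSum _ (fun x _ => Finset.measurable_sum _ fun y _ =>
      measurable_one.indicator ((hAm x).inter (hAm y)))]
    refine Finset.sum_congr rfl fun x _ => ?_
    rw [lintegral_finsetSum _ (fun y _ => measurable_one.indicator ((hAm x).inter (hAm y)))]
    refine Finset.sum_congr rfl fun y _ => ?_
    rw [lintegral_indicator_one ((hAm x).inter (hAm y))]
    rfl
  have h2 : ∀ τ, f τ = ((nn k J B β τ * (nn k J B β τ - 1) : ℕ) : ENNReal) := by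
    intro τ
    set F := (blk J).filter fun x : ℕ => τ - β * (x : ℝ) ^ k ∈ B with hF
    have hN : nn k J B β τ = F.card := rfl
    rw [hN]
    have h3 : ∀ x ∈ blk J, (∑ y ∈ (blk J).erase x, (A x ∩ A y).indicator (1 : ℝ → ENNReal) τ) =
        if x ∈ F then ((F.card - 1 : ℕ) : ENNReal) else 0 := by
      intro x hx
      by_cases hxF : x ∈ F
      · rw [if_pos hxF]
        have hxA : τ ∈ A x := (Finset.mem_filter.1 hxF).2
        have : ∀ y ∈ (blk J).erase x, (A x ∩ A y).indicator (1 : ℝ → ENNReal) τ =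
            if τ - β * (y : ℝ) ^ k ∈ B then 1 else 0 := by
          intro y _
          by_cases hy : τ - β * (y : ℝ) ^ k ∈ B
          · rw [if_pos hy, Set.indicator_of_mem (show τ ∈ A x ∩ A y from ⟨hxA, hy⟩)]
            rfl
          · rw [if_neg hy, Set.indicator_of_notMem (fun h => hy h.2)]
        rw [Finset.sum_congr rfl this, Finset.sum_ite, Finset.sum_const_zero, add_zero,
          Finset.sum_const, nsmul_eq_mul, mul_one, Finset.filter_erase]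
        rw [Finset.card_erase_of_mem hxF]
      · rw [if_neg hxF]
        refine Finset.sum_eq_zero fun y _ => ?_
        refine Set.indicator_of_notMem (fun h => hxF ?_) _
        exact Finset.mem_filter.2 ⟨hx, h.1⟩
    simp only [hf]
    rw [Finset.sum_congr rfl h3, Finset.sum_ite, Finset.sum_const_zero, add_zero,
      Finset.sum_const, nsmul_eq_mul]
    have : (blk J).filter (fun x => x ∈ F) = F := by
      ext x
      simp [hF]
    rw [this]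
    push_cast
    rfl
  rw [← h1]
  refine le_trans ?_ (mul_meas_ge_le_lintegral hfm (ENNReal.ofReal (K ^ 2 / 2)))
  refine mul_le_mul_right (measure_mono fun τ hτ => ?_) _
  have hτ' : K ≤ nn k J B β τ := hτ
  show ENNReal.ofReal (K ^ 2 / 2) ≤ f τ
  rw [h2, ← ENNReal.ofReal_natCast]
  refine ENNReal.ofReal_le_ofReal ?_
  set n := nn k J B β τ
  have hn : 2 ≤ n := by
    have : (1 : ℝ) < n := lt_of_lt_of_le hK hτ'
    have : 1 < n := by exact_mod_cast this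
    omega
  obtain ⟨p, hp⟩ : ∃ p, n = p + 2 := ⟨n - 2, by omega⟩
  rw [hp] at hτ' ⊢
  have : p + 2 - 1 = p + 1 := by omega
  rw [this]
  push_cast at hτ' ⊢
  have hK2 : K ^ 2 ≤ ((p : ℝ) + 2) ^ 2 := pow_le_pow_left₀ (by linarith) hτ' 2
  have hp0 : (0 : ℝ) ≤ p := Nat.cast_nonneg _
  nlinarith


lemma sum_ite_nn (k J : ℕ) (B : Set ℝ) (β τ a : ℝ)
    [DecidablePred fun x : ℕ => τ - β * (x : ℝ) ^ k ∈ B] :
    (∑ x ∈ blk J, if τ - β * (x : ℝ) ^ k ∈ B then a else 0) = a * nn k J B β τ := by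
  rw [Finset.sum_ite, Finset.sum_const_zero, add_zero, Finset.sum_const, nsmul_eq_mul, mul_comm]
  congr 2
  unfold nn
  congr 1
  congr

theorem main (hS : StSplit) (hM : StMeas) (k j : ℕ) (ε δs δ δ' μ η Cv Cp Cμ : ℝ) (C C' : ℕ)
    (hk : 2 ≤ k) (hj : 1 ≤ j) (hε : 0 < ε) (hδs : 0 < δs) (hδs1 : δs ≤ 1 / 2)
    (hδsε : (2 * ((k + j : ℕ) : ℝ) + 1) * δs ≤ ε)
    (hδ : 0 < δ) (hδ' : δ' = min δ (1 / 2) / 2) (hμ : 0 < μ) (hμ1 : μ ≤ 1 / 4)
    (hμ2 : μ * (2 ^ (j + 1) + 1) ≤ ε)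
    (hη1 : η ≤ 1) (hCv : 0 ≤ Cv) (hCp0 : 0 ≤ Cp) (hCμ1 : 1 ≤ Cμ)
    (hCμ : ∀ J : ℕ, (2 * ((k + j : ℕ) : ℝ) * J + 1 : ℝ) ≤ Cμ * ((3 : ℝ) ^ J) ^ μ)
    (c1 : 4 * (Cv + 2 * (C + 1)) ≤ (C' : ℝ)) (c2 : 4 * Cμ * Cv + 1 ≤ (C' : ℝ))
    (c3 : Cμ ^ (2 ^ (j + 1) + 1) * (32 * 4 ^ (2 ^ (j + 1)) * Cp * ((C : ℝ) + 1) ^ 2) ≤ (C' : ℝ))
    (ξ : Fin (k + j) → ℝ) (β : ℝ)
    (b : Fin (k + j + 1) → ℕ) (hb : Monotone b) (J : ℕ) (hJ : mx b = J) (l' : ℕ)
    (hl' : (C' : ℝ) * ((3 : ℝ) ^ J) ^ (((j + 1 : ℕ) : ℝ) - δ') ≤ 2 ^ l')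
    (hC : ∀ b : Fin (k + j) → ℕ, Monotone b → ∀ J l : ℕ, mx b ≤ J →
      C * ((3 : ℝ) ^ J) ^ ((j : ℝ) - δ) ≤ 2 ^ l →
      volume (Df k ξ b η l) ≤
        ENNReal.ofReal (C * ((3 : ℝ) ^ J) ^ ((k : ℝ) - 2 ^ j / 2 + ε) *
          (((3 : ℝ) ^ J) ^ (j : ℝ) / 2 ^ l) ^ (2 ^ j)))
    (hCp : ∀ (b : Fin (k + j) → ℕ) (J l : ℕ), mx b ≤ J →
      pairs k J (Df k ξ b η l) β ≤
      ENNReal.ofReal (Cp * ((3 : ℝ) ^ J * 2 ^ l) ^ δs * ((3 : ℝ) ^ J) ^ 2 / ((3 : ℝ) ^ J) ^ k) *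
        (volume (Df k ξ b η l)) ^ 2)
    (hV : ∀ (b : Fin (k + j) → ℕ) (J : ℕ) (τ : ℝ), Monotone b → mx b ≤ J →
      vl k (Fin.snoc ξ β : Fin (k + j + 1) → ℝ) (Fin.snoc b J : Fin (k + j + 1) → ℕ) η τ ≤
      ∑ x ∈ blk J, vl k ξ b η (τ - β * (x : ℝ) ^ k) + Cv * ((3 : ℝ) ^ J) ^ j)
    (hVb : ∀ (b : Fin (k + j) → ℕ) (J : ℕ) (τ : ℝ), Monotone b → mx b ≤ J →
      vl k ξ b η τ ≤ Cv * ((3 : ℝ) ^ J) ^ j) :
    volume (Df k (Fin.snoc ξ β : Fin (k + j + 1) → ℝ) b η l') ≤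
      ENNReal.ofReal (C' * ((3 : ℝ) ^ J) ^ ((k : ℝ) - 2 ^ (j + 1) / 2 + 4 * ε) *
        (((3 : ℝ) ^ J) ^ (((j + 1 : ℕ) : ℝ)) / 2 ^ l') ^ (2 ^ (j + 1))) := by
  classical
  obtain ⟨hsn, -, -, hvl, -, -, -⟩ := hS
  obtain ⟨-, -, -, -, hMDf, -, -, -⟩ := hM
  set z : ℝ := (3 : ℝ) ^ J with hz
  have hz1 : 1 ≤ z := one_le_pow₀ (by norm_num)
  have hz0 : 0 < z := by linarith
  set b0 : Fin (k + j) → ℕ := Fin.init b with hb0
  have hbl : b (Fin.last _) = J := by rw [← mx_last b hb, hJ]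
  have hbs : b = (Fin.snoc b0 J : Fin (k + j + 1) → ℕ) := by
    rw [hb0, ← hbl, Fin.snoc_init_self]
  have hb0m : Monotone b0 := fun x y hxy => hb (Fin.castSucc_le_castSucc_iff.2 hxy)
  have hb0J : mx b0 ≤ J := by rw [← hbl]; exact mx_init b hb
  set δ1 : ℝ := min δ (1 / 2) with hδ1
  have hδ1p : 0 < δ1 := lt_min hδ (by norm_num)
  have hδ1h : δ1 ≤ 1 / 2 := min_le_right _ _
  have hδ1δ : δ1 ≤ δ := min_le_left _ _
  have hj1 : (1 : ℝ) ≤ j := by exact_mod_cast hj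
  -- the smallest level
  have hx1 : 1 ≤ ((C : ℝ) + 1) * z ^ ((j : ℝ) - δ1) := by
    have h1 : 1 ≤ z ^ ((j : ℝ) - δ1) := Real.one_le_rpow hz1 (by linarith)
    have h2 : (1 : ℝ) ≤ (C : ℝ) + 1 := by
      have : (0 : ℝ) ≤ C := Nat.cast_nonneg _
      linarith
    exact one_le_mul_of_one_le_of_one_le h2 h1
  obtain ⟨n0, hn0, hn1⟩ := exists_nat_pow_near hx1 (by norm_num : (1 : ℝ) < 2)
  set l0 := n0 + 1 with hl0
  have hl0a : ((C : ℝ) + 1) * z ^ ((j : ℝ) - δ1) ≤ 2 ^ l0 := hn1.le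
  have hl0b : (2 : ℝ) ^ l0 ≤ 2 * (((C : ℝ) + 1) * z ^ ((j : ℝ) - δ1)) := by
    rw [hl0, pow_succ]
    linarith
  set M : ℕ := 2 * (k + j) * J with hMdef
  set L' : ℝ := (2 : ℝ) ^ l' with hL'
  have hL'0 : 0 < L' := by positivity
  have hL'1 : 1 ≤ L' := one_le_pow₀ (by norm_num)
  -- small terms
  have hsmall : Cv * z ^ j + z * 2 ^ l0 ≤ L' / 4 := by
    have e1 : z ^ (((j + 1 : ℕ) : ℝ) - δ') = z * z ^ ((j : ℝ) - δ') := by
      rw [← Real.rpow_one_add' hz0.le (by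
        have : δ' ≤ 1 / 4 := by rw [hδ']; linarith
        intro h
        linarith)]
      congr 1
      push_cast
      ring
    have e2 : z ^ ((j : ℝ) - δ1) ≤ z ^ ((j : ℝ) - δ') :=
      Real.rpow_le_rpow_of_exponent_le hz1 (by rw [hδ']; linarith)
    have e3 : z ^ j ≤ z * z ^ ((j : ℝ) - δ') := by
      rw [← e1, ← Real.rpow_natCast]
      refine Real.rpow_le_rpow_of_exponent_le hz1 ?_
      push_cast
      have : δ' ≤ 1 / 4 := by rw [hδ']; linarith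
      linarith
    have e4 : z * 2 ^ l0 ≤ 2 * (C + 1) * (z * z ^ ((j : ℝ) - δ')) := by
      calc z * 2 ^ l0 ≤ z * (2 * (((C : ℝ) + 1) * z ^ ((j : ℝ) - δ1))) :=
            mul_le_mul_of_nonneg_left hl0b hz0.le
        _ ≤ z * (2 * (((C : ℝ) + 1) * z ^ ((j : ℝ) - δ'))) := by gcongr
        _ = 2 * (C + 1) * (z * z ^ ((j : ℝ) - δ')) := by ring
    have e5 : 0 ≤ z * z ^ ((j : ℝ) - δ') := by positivity
    rw [e1] at hl'
    calc Cv * z ^ j + z * 2 ^ l0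
        ≤ Cv * (z * z ^ ((j : ℝ) - δ')) + 2 * (C + 1) * (z * z ^ ((j : ℝ) - δ')) := by
          gcongr
      _ = (4 * (Cv + 2 * (C + 1))) * (z * z ^ ((j : ℝ) - δ')) / 4 := by ring
      _ ≤ C' * (z * z ^ ((j : ℝ) - δ')) / 4 := by gcongr
      _ ≤ L' / 4 := by gcongr
  -- the inclusion
  set N : ℕ → ℝ → ℝ := fun l τ => (nn k J (Df k ξ b0 η l) β τ : ℝ) with hN
  have hincl : Df k (Fin.snoc ξ β : Fin (k + j + 1) → ℝ) b η l' ⊆
      ⋃ l ∈ Finset.Icc l0 M, {τ : ℝ | L' ≤ 4 * (M + 1) * 2 ^ l * N l τ} := by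
    intro τ hτ
    have hτ1 : (cn k (Fin.snoc ξ β : Fin (k + j + 1) → ℝ) b η τ : ℝ) + L' ≤
        vl k (Fin.snoc ξ β : Fin (k + j + 1) → ℝ) b η τ := hτ
    rw [hbs] at hτ1
    rw [hsn] at hτ1
    push_cast at hτ1
    have hpt : ∀ x ∈ blk J, vl k ξ b0 η (τ - β * (x : ℝ) ^ k) ≤
        (cn k ξ b0 η (τ - β * (x : ℝ) ^ k) : ℝ) + 2 ^ l0 + ∑ l ∈ Finset.Icc l0 M,
          if τ - β * (x : ℝ) ^ k ∈ Df k ξ b0 η l then (2 : ℝ) ^ (l + 1) else 0 := by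
      intro x _
      have hc := (hvl k (k + j) ξ b0 η (τ - β * (x : ℝ) ^ k)).2
      have hc2 : vl k ξ b0 η (τ - β * (x : ℝ) ^ k) ≤ 2 ^ M := by
        refine hc.trans ?_
        have h1 : ((3 : ℝ) ^ mx b0) ≤ 3 ^ J := pow_le_pow_right₀ (by norm_num) hb0J
        calc ((3 : ℝ) ^ mx b0) ^ (k + j) ≤ (3 ^ J) ^ (k + j) :=
              pow_le_pow_left₀ (by positivity) h1 _
          _ ≤ (4 ^ J) ^ (k + j) :=
              pow_le_pow_left₀ (by positivity) (pow_le_pow_left₀ (by norm_num) (by norm_num) _) _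
          _ = 2 ^ M := by
              rw [hMdef, show (4 : ℝ) = 2 ^ 2 by norm_num, ← pow_mul, ← pow_mul]
              congr 1
              ring
      have := point (vl k ξ b0 η (τ - β * (x : ℝ) ^ k)) M l0
        (cn k ξ b0 η (τ - β * (x : ℝ) ^ k)) (Nat.cast_nonneg _) hc2
      refine this.trans (le_of_eq ?_)
      congr 1
    have hsum := Finset.sum_le_sum hpt
    rw [Finset.sum_add_distrib, Finset.sum_add_distrib, Finset.sum_comm, Finset.sum_const,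
      nsmul_eq_mul] at hsum
    simp only [sum_ite_nn] at hsum
    have hV1 := hV b0 J τ hb0m hb0J
    have hcard : ((blk J).card : ℝ) * 2 ^ l0 ≤ z * 2 ^ l0 :=
      mul_le_mul_of_nonneg_right (card_blk J) (by positivity)
    have hfin : L' ≤ (Cv * z ^ j + z * 2 ^ l0) +
        ∑ l ∈ Finset.Icc l0 M, 2 ^ (l + 1) * N l τ := by
      simp only [hN]
      linarith
    obtain ⟨l, hl, hl2⟩ := pick M l0 l' _ (fun l => N l τ) hsmall hfin
    simp only [Set.mem_iUnion]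
    exact ⟨l, hl, hl2⟩
  -- the bound for one level
  set m : ℝ := (M : ℝ) + 1 with hm
  have hm1 : 1 ≤ m := by
    have : (0 : ℝ) ≤ M := Nat.cast_nonneg _
    rw [hm]; linarith
  have hmz : m ≤ Cμ * z ^ μ := by
    have := hCμ J
    rw [hm, hMdef]
    push_cast at this ⊢
    exact this
  set Bd : ℝ := (32 * 4 ^ (2 ^ (j + 1)) * Cp * ((C : ℝ) + 1) ^ 2) *
    m ^ (2 ^ (j + 1)) * z ^ ((k : ℝ) - 2 ^ (j + 1) / 2 + 3 * ε) *
    (z ^ (((j + 1 : ℕ) : ℝ)) / L') ^ (2 ^ (j + 1)) with hBd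
  have hBd0 : 0 ≤ Bd := by positivity
  have hlev : ∀ l ∈ Finset.Icc l0 M,
      volume {τ : ℝ | L' ≤ 4 * (M + 1) * 2 ^ l * N l τ} ≤ ENNReal.ofReal Bd := by
    intro l hl
    rw [Finset.mem_Icc] at hl
    set L : ℝ := (2 : ℝ) ^ l with hL
    have hL0 : 0 < L := by positivity
    have hL1 : 1 ≤ L := one_le_pow₀ (by norm_num)
    rcases Set.eq_empty_or_nonempty {τ : ℝ | L' ≤ 4 * (M + 1) * L * N l τ} with he | ⟨τ0, hτ0⟩
    · rw [he, measure_empty]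
      exact bot_le
    have hτ0' : L' ≤ 4 * m * L * N l τ0 := hτ0
    have hLz : L' ≤ 4 * m * L * z := by
      refine hτ0'.trans ?_
      exact mul_le_mul_of_nonneg_left (nn_le k J _ β τ0) (by positivity)
    have hL2 : L ≤ z ^ (2 * (k + j)) := by
      calc L ≤ 2 ^ M := pow_le_pow_right₀ (by norm_num) hl.2
        _ ≤ 3 ^ M := pow_le_pow_left₀ (by norm_num) (by norm_num) _
        _ = z ^ (2 * (k + j)) := by
            rw [hz, hMdef, ← pow_mul]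
            congr 1
            ring
    have hset : {τ : ℝ | L' ≤ 4 * (M + 1) * L * N l τ} =
        {τ : ℝ | L' / (4 * m * L) ≤ nn k J (Df k ξ b0 η l) β τ} := by
      ext τ
      simp only [Set.mem_ofPred_eq, hN]
      rw [div_le_iff₀ (by positivity), mul_comm (4 * m * L)]
    rw [hset]
    have hlC : (C : ℝ) * z ^ ((j : ℝ) - δ) ≤ 2 ^ l := by
      have h1 : z ^ ((j : ℝ) - δ) ≤ z ^ ((j : ℝ) - δ1) :=
        Real.rpow_le_rpow_of_exponent_le hz1 (by linarith)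
      have h2 : (0 : ℝ) ≤ z ^ ((j : ℝ) - δ1) := by positivity
      have h3 : (0 : ℝ) ≤ C := Nat.cast_nonneg _
      calc (C : ℝ) * z ^ ((j : ℝ) - δ) ≤ C * z ^ ((j : ℝ) - δ1) :=
            mul_le_mul_of_nonneg_left h1 h3
        _ ≤ (C + 1) * z ^ ((j : ℝ) - δ1) := mul_le_mul_of_nonneg_right (by linarith) h2
        _ ≤ 2 ^ l0 := hl0a
        _ ≤ 2 ^ l := pow_le_pow_right₀ (by norm_num) hl.1
    have hLv : L ≤ Cv * z ^ j := by
      have hpos : 0 < nn k J (Df k ξ b0 η l) β τ0 := by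
        by_contra hn
        have hn0 : nn k J (Df k ξ b0 η l) β τ0 = 0 := by omega
        have hτ0'' : L' ≤ 4 * m * L * (nn k J (Df k ξ b0 η l) β τ0 : ℝ) := hτ0'
        rw [hn0] at hτ0''
        push_cast at hτ0''
        linarith
      unfold nn at hpos
      obtain ⟨x, hx⟩ := Finset.card_pos.1 hpos
      have hx2 : (cn k ξ b0 η (τ0 - β * (x : ℝ) ^ k) : ℝ) + 2 ^ l ≤
          vl k ξ b0 η (τ0 - β * (x : ℝ) ^ k) := (Finset.mem_filter.1 hx).2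
      have hx3 := hVb b0 J (τ0 - β * (x : ℝ) ^ k) hb0m hb0J
      have hx4 : (0 : ℝ) ≤ cn k ξ b0 η (τ0 - β * (x : ℝ) ^ k) := Nat.cast_nonneg _
      linarith
    have hK : 1 < L' / (4 * m * L) := by
      rw [lt_div_iff₀ (by positivity), one_mul]
      have h2 : z ^ μ * z ^ j ≤ z ^ (((j + 1 : ℕ) : ℝ) - δ') := by
        rw [← Real.rpow_natCast z j, ← Real.rpow_add hz0]
        refine Real.rpow_le_rpow_of_exponent_le hz1 ?_
        have : δ' ≤ 1 / 4 := by rw [hδ']; linarith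
        push_cast
        linarith
      have h3 : (0 : ℝ) < z ^ (((j + 1 : ℕ) : ℝ) - δ') := by positivity
      calc 4 * m * L ≤ 4 * (Cμ * z ^ μ) * (Cv * z ^ j) := by gcongr
        _ = 4 * Cμ * Cv * (z ^ μ * z ^ j) := by ring
        _ ≤ 4 * Cμ * Cv * z ^ (((j + 1 : ℕ) : ℝ) - δ') := by gcongr
        _ < (4 * Cμ * Cv + 1) * z ^ (((j + 1 : ℕ) : ℝ) - δ') := by linarith
        _ ≤ C' * z ^ (((j + 1 : ℕ) : ℝ) - δ') := by gcongr
        _ ≤ L' := hl'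
    · have h1 := vol_two k J (Df k ξ b0 η l) (hMDf k (k + j) ξ b0 η l) β _ hK
      have h2 := hC b0 hb0m J l hb0J hlC
      have h3 := hCp b0 J l hb0J
      set T : ℝ := C * z ^ ((k : ℝ) - 2 ^ j / 2 + ε) * (z ^ (j : ℝ) / 2 ^ l) ^ (2 ^ j) with hT
      have hT0 : 0 ≤ T := by positivity
      set P : ℝ := Cp * (z * 2 ^ l) ^ δs * z ^ 2 / z ^ k with hP
      have hP0 : 0 ≤ P := by positivity
      have h4 : ENNReal.ofReal ((L' / (4 * m * L)) ^ 2 / 2) *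
          volume {τ : ℝ | L' / (4 * m * L) ≤ nn k J (Df k ξ b0 η l) β τ} ≤
          ENNReal.ofReal (P * T ^ 2) := by
        refine h1.trans (h3.trans ?_)
        rw [ENNReal.ofReal_mul hP0, ENNReal.ofReal_pow hT0]
        gcongr
      have hKp : 0 < (L' / (4 * m * L)) ^ 2 / 2 := by positivity
      have h5 : volume {τ : ℝ | L' / (4 * m * L) ≤ nn k J (Df k ξ b0 η l) β τ} ≤
          ENNReal.ofReal (P * T ^ 2 / ((L' / (4 * m * L)) ^ 2 / 2)) := by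
        rw [ENNReal.ofReal_div_of_pos hKp,
          ENNReal.le_div_iff_mul_le (Or.inl (by simpa using hKp))
            (Or.inl ENNReal.ofReal_ne_top), mul_comm]
        exact h4
      refine h5.trans (ENNReal.ofReal_le_ofReal ?_)
      have h6 := i1 k j (k + j) C Cp z L L' m ε δs ε hCp0 hz1 hL1 hL'1 hm1
        hδs.le hLz hL2 hδsε hj
      refine h6.trans ?_
      rw [hBd]
      have e1 : ε + 2 * ε = 3 * ε := by ring
      rw [e1]
      have h7 : 32 * 4 ^ (2 ^ (j + 1)) * Cp * (C : ℝ) ^ 2 ≤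
          32 * 4 ^ (2 ^ (j + 1)) * Cp * ((C : ℝ) + 1) ^ 2 := by
        have h8 : (C : ℝ) ^ 2 ≤ ((C : ℝ) + 1) ^ 2 := by
          have : (0 : ℝ) ≤ C := Nat.cast_nonneg _
          nlinarith
        have h10 : 32 * 4 ^ (2 ^ (j + 1)) * Cp * (C : ℝ) ^ 2 ≤
          32 * 4 ^ (2 ^ (j + 1)) * Cp * ((C : ℝ) + 1) ^ 2 :=
            mul_le_mul_of_nonneg_left h8 (by positivity)
        linarith
      gcongr
  -- the sum over the levels
  refine (measure_mono hincl).trans ((measure_biUnion_finset_le _ _).trans ?_)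
  refine (Finset.sum_le_card_nsmul _ _ _ hlev).trans ?_
  have hcardI : ((Finset.Icc l0 M).card : ℝ) ≤ m := by
    rw [Nat.card_Icc, hm]
    have : M + 1 - l0 ≤ M + 1 := Nat.sub_le _ _
    exact_mod_cast this
  rw [nsmul_eq_mul, ← ENNReal.ofReal_natCast, ← ENNReal.ofReal_mul (Nat.cast_nonneg _)]
  refine ENNReal.ofReal_le_ofReal ?_
  have hz3 : z ^ ((k : ℝ) - 2 ^ (j + 1) / 2 + 4 * ε) =
      z ^ ((k : ℝ) - 2 ^ (j + 1) / 2 + 3 * ε) * z ^ ε := by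
    rw [← Real.rpow_add hz0]
    congr 1
    ring
  have hmQ : m ^ (2 ^ (j + 1) + 1) ≤ Cμ ^ (2 ^ (j + 1) + 1) * z ^ ε := by
    calc m ^ (2 ^ (j + 1) + 1) ≤ (Cμ * z ^ μ) ^ (2 ^ (j + 1) + 1) :=
          pow_le_pow_left₀ (by positivity) hmz _
      _ = Cμ ^ (2 ^ (j + 1) + 1) * z ^ (μ * (2 ^ (j + 1) + 1)) := by
          rw [mul_pow]
          congr 1
          rw [← Real.rpow_natCast (z ^ μ), ← Real.rpow_mul hz0.le]
          congr 1
          push_cast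
          ring
      _ ≤ Cμ ^ (2 ^ (j + 1) + 1) * z ^ ε := by
          gcongr
  calc ((Finset.Icc l0 M).card : ℝ) * Bd ≤ m * Bd := mul_le_mul_of_nonneg_right hcardI hBd0
    _ = (32 * 4 ^ (2 ^ (j + 1)) * Cp * ((C : ℝ) + 1) ^ 2) *
        m ^ (2 ^ (j + 1) + 1) * (z ^ ((k : ℝ) - 2 ^ (j + 1) / 2 + 3 * ε) *
        (z ^ (((j + 1 : ℕ) : ℝ)) / L') ^ (2 ^ (j + 1))) := by
        rw [hBd, pow_succ]
        ring
    _ ≤ (32 * 4 ^ (2 ^ (j + 1)) * Cp * ((C : ℝ) + 1) ^ 2) *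
        (Cμ ^ (2 ^ (j + 1) + 1) * z ^ ε) * (z ^ ((k : ℝ) - 2 ^ (j + 1) / 2 + 3 * ε) *
        (z ^ (((j + 1 : ℕ) : ℝ)) / L') ^ (2 ^ (j + 1))) := by
        gcongr
    _ = (Cμ ^ (2 ^ (j + 1) + 1) * (32 * 4 ^ (2 ^ (j + 1)) * Cp * ((C : ℝ) + 1) ^ 2)) * z ^ ((k : ℝ) - 2 ^ (j + 1) / 2 + 4 * ε) *
        (z ^ (((j + 1 : ℕ) : ℝ)) / L') ^ (2 ^ (j + 1)) := by
        rw [hz3]
        ring
    _ ≤ C' * z ^ ((k : ℝ) - 2 ^ (j + 1) / 2 + 4 * ε) *
        (z ^ (((j + 1 : ℕ) : ℝ)) / L') ^ (2 ^ (j + 1)) := by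
        gcongr


/-- JOB LSTEP -/
theorem lstep (hS : StSplit) (hM : StMeas) (hT : StTvl) : StLstep := by
  intro k j mm ε' hk hj hmm hε'
  set ε : ℝ := ε' / 4 with hεd
  have hε : 0 < ε := by positivity
  set δs : ℝ := min ε 1 / (2 * (2 * ((k + j : ℕ) : ℝ) + 1)) with hδsd
  have hden : (2 : ℝ) ≤ 2 * (2 * ((k + j : ℕ) : ℝ) + 1) := by
    have : (0 : ℝ) ≤ ((k + j : ℕ) : ℝ) := Nat.cast_nonneg _
    linarith
  have hm0 : 0 < min ε 1 := lt_min hε one_pos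
  have hδs : 0 < δs := div_pos hm0 (by linarith)
  have hδs1 : δs ≤ 1 / 2 := by
    rw [hδsd, div_le_div_iff₀ (by linarith) (by norm_num)]
    have : min ε 1 ≤ 1 := min_le_right _ _
    linarith
  have hδsε : (2 * ((k + j : ℕ) : ℝ) + 1) * δs ≤ ε := by
    have h1 : (2 * ((k + j : ℕ) : ℝ) + 1) * δs = min ε 1 / 2 := by
      rw [hδsd]
      have : (2 * ((k + j : ℕ) : ℝ) + 1) ≠ 0 := by
        have : (0 : ℝ) ≤ ((k + j : ℕ) : ℝ) := Nat.cast_nonneg _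
        linarith
      field_simp
    rw [h1]
    have : min ε 1 ≤ ε := min_le_left _ _
    linarith
  refine ⟨ε, δs, hε, hδs, by linarith, ?_⟩
  intro δ hδ
  set δ' : ℝ := min δ (1 / 2) / 2 with hδ'
  refine ⟨δ', half_pos (lt_min hδ (by norm_num)), ?_⟩
  intro η ξ β hη hη1 hCf hβ hβ1 hTT hPE
  obtain ⟨C, hC⟩ := hTT
  obtain ⟨Cp, hCp0, hCp⟩ := hPE
  obtain ⟨Cv, hCv0, hCv, hCvb⟩ := hT k (k + j) mm hk (by omega) hmm
  set μ : ℝ := min ε 1 / (4 * (2 ^ (j + 1) + 1)) with hμd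
  have hQ0 : (0 : ℝ) < 2 ^ (j + 1) := by positivity
  have hμ : 0 < μ := div_pos hm0 (by positivity)
  have hμ1 : μ ≤ 1 / 4 := by
    rw [hμd, div_le_div_iff₀ (by positivity) (by norm_num)]
    have : min ε 1 ≤ 1 := min_le_right _ _
    linarith
  have hμ2 : μ * (2 ^ (j + 1) + 1) ≤ ε := by
    have h1 : μ * (2 ^ (j + 1) + 1) = min ε 1 / 4 := by
      rw [hμd]
      field_simp
    rw [h1]
    have : min ε 1 ≤ ε := min_le_left _ _
    linarith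
  obtain ⟨Cμ, hCμ1, hCμ⟩ := mbound (k + j) μ hμ
  set X : ℝ := 4 * (Cv + 2 * (C + 1)) + (4 * Cμ * Cv + 1) +
    Cμ ^ (2 ^ (j + 1) + 1) * (32 * 4 ^ (2 ^ (j + 1)) * Cp * ((C : ℝ) + 1) ^ 2) with hX
  obtain ⟨C', hC'⟩ := exists_nat_ge X
  have hp1 : (0 : ℝ) ≤ 4 * (Cv + 2 * (C + 1)) := by positivity
  have hp2 : (0 : ℝ) ≤ 4 * Cμ * Cv + 1 := by positivity
  have hp3 : (0 : ℝ) ≤ Cμ ^ (2 ^ (j + 1) + 1) *
      (32 * 4 ^ (2 ^ (j + 1)) * Cp * ((C : ℝ) + 1) ^ 2) := by positivity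
  refine ⟨C', ?_⟩
  intro b hb J l' hJ hl'
  have hJ3 : (3 : ℝ) ^ mx b ≤ 3 ^ J := pow_le_pow_right₀ (by norm_num) hJ
  have hz1 : (1 : ℝ) ≤ 3 ^ mx b := one_le_pow₀ (by norm_num)
  have hδ'1 : δ' ≤ 1 / 4 := by
    have : min δ (1 / 2) ≤ 1 / 2 := min_le_right _ _
    rw [hδ']
    linarith
  have hj1 : (1 : ℝ) ≤ j := by exact_mod_cast hj
  have hl2 : (C' : ℝ) * ((3 : ℝ) ^ mx b) ^ (((j + 1 : ℕ) : ℝ) - δ') ≤ 2 ^ l' := by
    refine le_trans ?_ hl'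
    refine mul_le_mul_of_nonneg_left ?_ (Nat.cast_nonneg _)
    refine Real.rpow_le_rpow (by positivity) hJ3 ?_
    push_cast
    linarith
  have hmain := main hS hM k j ε δs δ δ' μ η Cv Cp Cμ C C' hk hj hε hδs hδs1 hδsε hδ hδ' hμ
    hμ1 hμ2 hη1 hCv0.le hCp0 hCμ1 hCμ (by linarith) (by linarith) (by linarith) ξ β b hb (mx b)
    rfl l' hl2 hC hCp (by
      intro b1 J1 τ h1 h2
      have := hCv ξ b1 J1 η τ β hCf h1 h2 hη hη1 hβ hβ1
      rw [Nat.add_sub_cancel_left] at this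
      have := (abs_le.1 this).1
      linarith) (by
      intro b1 J1 τ h1 h2
      have h3 := hCvb ξ b1 η τ hCf h1 hη hη1
      rw [Nat.add_sub_cancel_left] at h3
      refine h3.trans ?_
      have h4 : ((3 : ℝ) ^ mx b1) ≤ 3 ^ J1 := pow_le_pow_right₀ (by norm_num) h2
      gcongr)
  refine hmain.trans (ENNReal.ofReal_le_ofReal ?_)
  have hε4 : 4 * ε = ε' := by rw [hεd]; ring
  rw [hε4]
  have key : ∀ z : ℝ, 1 ≤ z → (C' : ℝ) * z ^ ((k : ℝ) - 2 ^ (j + 1) / 2 + ε') *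
      (z ^ (((j + 1 : ℕ) : ℝ)) / 2 ^ l') ^ (2 ^ (j + 1)) =
      C' * z ^ ((k : ℝ) - 2 ^ (j + 1) / 2 + ε' + ((j + 1 : ℕ) : ℝ) * 2 ^ (j + 1)) /
        (2 ^ l') ^ (2 ^ (j + 1)) := by
    intro z hz
    have hz0 : 0 < z := by linarith
    rw [div_pow, Real.rpow_add hz0 ((k : ℝ) - 2 ^ (j + 1) / 2 + ε')]
    have : (z ^ (((j + 1 : ℕ) : ℝ))) ^ (2 ^ (j + 1)) =
        z ^ (((j + 1 : ℕ) : ℝ) * 2 ^ (j + 1)) := by
      rw [Real.rpow_mul hz0.le, ← Real.rpow_natCast (z ^ (((j + 1 : ℕ) : ℝ))) (2 ^ (j + 1))]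
      push_cast
      rfl
    rw [this]
    ring
  rw [key _ hz1, key _ (hz1.trans hJ3)]
  refine div_le_div_of_nonneg_right ?_ (by positivity)
  refine mul_le_mul_of_nonneg_left ?_ (Nat.cast_nonneg _)
  refine Real.rpow_le_rpow (by positivity) hJ3 ?_
  have h1 : (2 : ℝ) ^ (j + 1) ≤ ((j + 1 : ℕ) : ℝ) * 2 ^ (j + 1) := by
    refine le_mul_of_one_le_left hQ0.le ?_
    push_cast
    linarith
  have h2 : (0 : ℝ) ≤ k := Nat.cast_nonneg _
  linarith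


end Pool.Agent.K7.H11.AGL
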